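import Mathlib

/-!
# Certificates for finite Galois stable sets without rational points
-/

set_option autoImplicit false

namespace Pool.Agent.Work.MP_9ac17e_al.Rig

open Polynomial

/-- Separating linear forms with integer coefficients. -/
theorem exists_sep {ι : Type} [Fintype ι] {L : Type} [Field L] [CharZero L] (S : Set (ι → L))
    (hS : S.Finite) : ∃ c : ι → ℤ, ∀ s ∈ S, ∀ s' ∈ S,
      ∑ i, (c i : L) * s i = ∑ i, (c i : L) * s' i → s = s' := by
  classical
  let e := Fintype.equivFin ι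
  let f : (ι → L) → L[X] := fun s => ∑ i, C (s i) * X ^ (e i : ℕ)
  have hf : ∀ (s : ι → L) (i : ι), (f s).coeff (e i) = s i := by
    intro s i
    show (∑ j : ι, C (s j) * X ^ (e j : ℕ)).coeff (e i) = s i
    rw [finsetSum_coeff]
    rw [Finset.sum_eq_single i]
    · rw [coeff_C_mul_X_pow, if_pos rfl]
    · intro j _ hj
      rw [coeff_C_mul_X_pow, if_neg (fun h => hj (e.injective (Fin.ext h.symm)))]
    · intro h
      exact absurd (Finset.mem_univ _) h
  have hev : ∀ (s : ι → L) (t : L), (f s).eval t = ∑ i, t ^ (e i : ℕ) * s i := by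
    intro s t
    show (∑ j : ι, C (s j) * X ^ (e j : ℕ)).eval t = _
    rw [eval_finsetSum]
    refine Finset.sum_congr rfl (fun i _ => ?_)
    rw [eval_mul, eval_C, eval_pow, eval_X, mul_comm]
  have hfin : (⋃ s ∈ S, ⋃ s' ∈ S, {t : ℕ | f s ≠ f s' ∧ (f s - f s').eval (t : L) = 0}).Finite := by
    refine hS.biUnion (fun s _ => hS.biUnion (fun s' _ => ?_))
    by_cases h : f s = f s'
    · have : {t : ℕ | f s ≠ f s' ∧ (f s - f s').eval (t : L) = 0} = ∅ := by
        ext t
        simp [h]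
      rw [this]
      exact Set.finite_empty
    · have h1 : ((f s - f s').rootSet L).Finite := Polynomial.rootSet_finite _ _
      refine Set.Finite.subset (Set.Finite.preimage
        (fun a _ b _ hab => Nat.cast_injective (R := L) hab) h1) (fun t ht => ?_)
      rw [Set.mem_preimage, Polynomial.mem_rootSet]
      refine ⟨sub_ne_zero.2 h, ?_⟩
      have h2 := ht.2
      rw [coe_aeval_eq_eval]
      exact h2
  obtain ⟨t, ht⟩ := hfin.infinite_compl.nonempty
  refine ⟨fun i => (t : ℤ) ^ (e i : ℕ), fun s hs s' hs' h => ?_⟩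
  have h1 : (f s - f s').eval (t : L) = 0 := by
    rw [eval_sub, hev, hev, sub_eq_zero]
    simpa using h
  by_contra hne
  apply ht
  simp only [Set.mem_iUnion]
  refine ⟨s, hs, s', hs', fun h2 => hne ?_, h1⟩
  funext i
  rw [← hf s i, ← hf s' i, h2]

/-- A common denominator. -/
theorem exists_denom {L : Type} [Field L] [Algebra ℚ L] [Algebra.IsAlgebraic ℚ L] (T : Set L)
    (hT : T.Finite) : ∃ N : ℤ, N ≠ 0 ∧ ∀ x ∈ T, IsIntegral ℤ ((N : L) * x) := by
  induction T, hT using Set.Finite.induction_on with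
  | empty => exact ⟨1, one_ne_zero, fun x hx => absurd hx (Set.notMem_empty x)⟩
  | @insert a T _ _ ih =>
    obtain ⟨N, hN, h⟩ := ih
    have ha : IsAlgebraic ℤ a := (IsFractionRing.isAlgebraic_iff ℤ ℚ L).2
      (Algebra.IsAlgebraic.isAlgebraic a)
    obtain ⟨y, hy, hy'⟩ := ha.exists_integral_multiple
    refine ⟨N * y, mul_ne_zero hN hy, fun x hx => ?_⟩
    rcases hx with rfl | hx
    · have h1 : ((N * y : ℤ) : L) * x = (N : L) * (y • x) := by
        rw [zsmul_eq_mul]
        push_cast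
        ring
      rw [h1]
      exact (isIntegral_algebraMap (R := ℤ) (A := L) (x := N)).mul hy'
    · have h1 : ((N * y : ℤ) : L) * x = (y : L) * ((N : L) * x) := by
        push_cast
        ring
      rw [h1]
      exact (isIntegral_algebraMap (R := ℤ) (A := L) (x := y)).mul (h x hx)

/-- A finite Galois stable set of points without a rational point has a certificate: integers `c`
and a monic polynomial `h` with integer coefficients and without integer roots. -/
theorem exists_cert {ι : Type} [Fintype ι] {L : Type} [Field L] [Algebra ℚ L]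
    [Algebra.IsAlgebraic ℚ L] [IsGalois ℚ L] (S : Set (ι → L))
    (hS : S.Finite) (hσ : ∀ (σ : L ≃ₐ[ℚ] L), ∀ s ∈ S, (fun i => σ (s i)) ∈ S)
    (hr : ∀ s ∈ S, ¬ ∃ r : ι → ℚ, s = fun i => algebraMap ℚ L (r i)) :
    ∃ (c : ι → ℤ) (h : ℤ[X]), h.Monic ∧ (∀ r : ℤ, h.eval r ≠ 0) ∧
      ∀ s ∈ S, aeval (∑ i, (c i : L) * s i) h = 0 := by
  classical
  haveI : CharZero L := algebraRat.charZero L
  obtain ⟨c0, hc0⟩ := exists_sep S hS
  obtain ⟨N, hN, hint⟩ := exists_denom ((fun s => ∑ i, (c0 i : L) * s i) '' S) (hS.image _)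
  let ℓ : (ι → L) → L := fun s => ∑ i, ((N * c0 i : ℤ) : L) * s i
  have hℓ : ∀ s, ℓ s = (N : L) * ∑ i, (c0 i : L) * s i := by
    intro s
    show ∑ i, ((N * c0 i : ℤ) : L) * s i = _
    rw [Finset.mul_sum]
    refine Finset.sum_congr rfl (fun i _ => ?_)
    push_cast
    ring
  have hNL : (N : L) ≠ 0 := by exact_mod_cast hN
  have hinj : ∀ s ∈ S, ∀ s' ∈ S, ℓ s = ℓ s' → s = s' := by
    intro s hs s' hs' h
    rw [hℓ, hℓ] at h
    exact hc0 s hs s' hs' (mul_left_cancel₀ hNL h)
  have hℓσ : ∀ (σ : L ≃ₐ[ℚ] L) (s : ι → L), ℓ (fun i => σ (s i)) = σ (ℓ s) := by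
    intro σ s
    show ∑ i, ((N * c0 i : ℤ) : L) * σ (s i) = σ (∑ i, ((N * c0 i : ℤ) : L) * s i)
    rw [map_sum]
    refine Finset.sum_congr rfl (fun i _ => ?_)
    rw [map_mul, map_intCast]
  have hfix : ∀ x : L, (∀ σ : L ≃ₐ[ℚ] L, σ x = x) → ∃ r : ℚ, algebraMap ℚ L r = x := by
    intro x hx
    exact (InfiniteGalois.mem_range_algebraMap_iff_fixed x).2 hx
  set T : Finset L := hS.toFinset.image ℓ with hT
  set F : L[X] := ∏ t ∈ T, (X - C t) with hF
  have hFm : F.Monic := monic_prod_of_monic _ _ (fun t _ => monic_X_sub_C t)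
  have hFσ : ∀ σ : L ≃ₐ[ℚ] L, F.map (σ : L →+* L) = F := by
    intro σ
    rw [hF, Polynomial.map_prod]
    have h1 : ∏ t ∈ T, (X - C t : L[X]).map (σ : L →+* L) = ∏ t ∈ T, (X - C (σ t)) := by
      refine Finset.prod_congr rfl (fun t _ => ?_)
      rw [Polynomial.map_sub, Polynomial.map_X, Polynomial.map_C]
      rfl
    rw [h1]
    have h2 : T.image (fun t => σ t) = T := by
      apply Finset.eq_of_subset_of_card_le
      · intro t ht
        rw [Finset.mem_image] at ht
        obtain ⟨t', ht', rfl⟩ := ht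
        rw [hT, Finset.mem_image] at ht'
        obtain ⟨s, hs, rfl⟩ := ht'
        rw [Set.Finite.mem_toFinset] at hs
        rw [hT, Finset.mem_image]
        refine ⟨fun i => σ (s i), ?_, hℓσ σ s⟩
        rw [Set.Finite.mem_toFinset]
        exact hσ σ s hs
      · rw [Finset.card_image_of_injective _ σ.injective]
    conv_rhs => rw [← h2]
    rw [Finset.prod_image (fun a _ b _ hab => σ.injective hab)]
  have hroot : ∀ s ∈ S, F.eval (ℓ s) = 0 := by
    intro s hs
    rw [hF, eval_prod]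
    refine Finset.prod_eq_zero (i := ℓ s) ?_ (by simp)
    rw [hT, Finset.mem_image]
    exact ⟨s, hS.mem_toFinset.2 hs, rfl⟩
  have hroot' : ∀ x, F.eval x = 0 → ∃ s ∈ S, ℓ s = x := by
    intro x hx
    rw [hF, eval_prod, Finset.prod_eq_zero_iff] at hx
    obtain ⟨t, ht, h0⟩ := hx
    rw [hT, Finset.mem_image] at ht
    obtain ⟨s, hs, rfl⟩ := ht
    refine ⟨s, hS.mem_toFinset.1 hs, ?_⟩
    rw [eval_sub, eval_X, eval_C, sub_eq_zero] at h0
    exact h0.symm
  have hTint : ∀ t ∈ T, IsIntegral ℤ t := by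
    intro t ht
    rw [hT, Finset.mem_image] at ht
    obtain ⟨s, hs, rfl⟩ := ht
    rw [hℓ]
    exact hint _ ⟨s, hS.mem_toFinset.1 hs, rfl⟩
  have hFint : ∀ k, IsIntegral ℤ (F.coeff k) := by
    have h1 : F ∈ Polynomial.lifts (algebraMap (integralClosure ℤ L) L) := by
      rw [hF]
      refine Subsemiring.prod_mem _ (fun t ht => ?_)
      rw [Polynomial.lifts_iff_coeff_lifts]
      intro k
      rw [coeff_sub, coeff_X, coeff_C]
      refine ⟨(if 1 = k then 1 else 0) - (if k = 0 then ⟨t, hTint t ht⟩ else 0), ?_⟩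
      rw [map_sub]
      split_ifs <;> simp
    intro k
    rw [Polynomial.lifts_iff_coeff_lifts] at h1
    obtain ⟨y, hy⟩ := h1 k
    rw [← hy]
    exact y.2
  have hFZ : F ∈ Polynomial.lifts (algebraMap ℤ L) := by
    rw [Polynomial.lifts_iff_coeff_lifts]
    intro k
    obtain ⟨r, hr⟩ := hfix (F.coeff k) (fun σ => by
      have h1 := congrArg (fun p => Polynomial.coeff p k) (hFσ σ)
      simp only [coeff_map] at h1
      exact h1)
    have h2 : IsIntegral ℤ r := by
      have h3 := hFint k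
      rw [← hr] at h3
      exact (isIntegral_algebraMap_iff (algebraMap ℚ L).injective).1 h3
    obtain ⟨z, hz⟩ := IsIntegrallyClosed.isIntegral_iff.1 h2
    refine ⟨z, ?_⟩
    rw [← hr, ← hz]
    simp
  obtain ⟨h, hh, _, hm⟩ := Polynomial.lifts_and_natDegree_eq_and_monic hFZ hFm
  refine ⟨fun i => N * c0 i, h, hm, fun r h0 => ?_, fun s hs => ?_⟩
  · have h1 : F.eval (r : L) = 0 := by
      rw [← hh, eval_map_algebraMap]
      have h2 : (r : L) = algebraMap ℤ L r := by simp
      rw [h2, aeval_algebraMap_apply, coe_aeval_eq_eval, h0, map_zero]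
    obtain ⟨s, hs, hsr⟩ := hroot' _ h1
    have h2 : ∀ σ : L ≃ₐ[ℚ] L, (fun i => σ (s i)) = s := by
      intro σ
      refine hinj _ (hσ σ s hs) _ hs ?_
      rw [hℓσ, hsr, map_intCast]
    have h3 : ∀ i, ∃ q : ℚ, algebraMap ℚ L q = s i := fun i =>
      hfix _ (fun σ => congrFun (h2 σ) i)
    choose q hq using h3
    exact hr s hs ⟨q, funext (fun i => (hq i).symm)⟩
  · rw [← eval_map_algebraMap, hh]
    exact hroot s hs

end Pool.Agent.Work.MP_9ac17e_al.Rig
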