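import Pool.Agent.Work.MP_9ac17e_al.Rig.A
import Pool.Agent.Work.MP_9ac17e_al.Closed

/-!
# Coded monic polynomials with integer coefficients, test for integer roots
-/

set_option autoImplicit false

namespace Pool.Agent.Work.MP_9ac17e_al.Rig

open Polynomial

/-- The monic polynomial with the given lower coefficients. -/
noncomputable def hpoly (l : List (ℕ × ℕ)) : ℤ[X] :=
  l.foldr (fun a acc => C ((a.1 : ℤ) - a.2) + X * acc) 1

theorem hpoly_nil : hpoly [] = 1 := rfl

theorem hpoly_cons (a : ℕ × ℕ) (l : List (ℕ × ℕ)) :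
    hpoly (a :: l) = C ((a.1 : ℤ) - a.2) + X * hpoly l := rfl

theorem hpoly_monic (l : List (ℕ × ℕ)) : (hpoly l).Monic := by
  induction l with
  | nil => exact monic_one
  | cons a l ih =>
    rw [hpoly_cons]
    have h1 : (X * hpoly l : ℤ[X]).Monic := monic_X.mul ih
    refine Polynomial.Monic.add_of_right h1 ?_
    refine lt_of_le_of_lt degree_C_le ?_
    rw [degree_mul, degree_X, degree_eq_natDegree ih.ne_zero]
    have : 0 < 1 + (hpoly l).natDegree := by omega
    exact_mod_cast this

theorem exists_hpoly (h : ℤ[X]) (hm : h.Monic) : ∃ l, hpoly l = h := by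
  have key : ∀ (n : ℕ) (h : ℤ[X]), h.Monic → h.natDegree = n → ∃ l, hpoly l = h := by
    intro n
    induction n with
    | zero =>
      intro h hm hd
      refine ⟨[], ?_⟩
      rw [hpoly_nil]
      exact (Polynomial.eq_one_of_monic_natDegree_zero hm hd).symm
    | succ n ih =>
      intro h hm hd
      have h1 : h.divX * X + C (h.coeff 0) = h := divX_mul_X_add h
      have hd' : h.divX.natDegree = n := by
        rw [natDegree_divX_eq_natDegree_tsub_one, hd]
        rfl
      have hm' : h.divX.Monic := by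
        unfold Monic leadingCoeff
        rw [hd', coeff_divX, ← hd]
        exact hm
      obtain ⟨l, hl⟩ := ih _ hm' hd'
      refine ⟨((h.coeff 0).toNat, (-(h.coeff 0)).toNat) :: l, ?_⟩
      rw [hpoly_cons, hl]
      have h2 : (((h.coeff 0).toNat : ℤ)) - ((-(h.coeff 0)).toNat : ℤ) = h.coeff 0 := by
        rcases le_total 0 (h.coeff 0) with h0 | h0
        · rw [Int.toNat_of_nonneg h0, Int.toNat_of_nonpos (by omega)]; simp
        · rw [Int.toNat_of_nonpos h0, Int.toNat_of_nonneg (by omega)]; simp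
      rw [h2, mul_comm X, add_comm]
      exact h1
  exact key _ h hm rfl

/-- The values at `m` and `-m`, as differences of natural numbers. -/
def hevp (l : List (ℕ × ℕ)) (m : ℕ) : ℕ × ℕ :=
  l.foldr (fun a acc => (a.1 + m * acc.1, a.2 + m * acc.2)) (1, 0)

/-- The values at `-m`. -/
def hevn (l : List (ℕ × ℕ)) (m : ℕ) : ℕ × ℕ :=
  l.foldr (fun a acc => (a.1 + m * acc.2, a.2 + m * acc.1)) (1, 0)

theorem hevp_eq (l : List (ℕ × ℕ)) (m : ℕ) :
    ((hevp l m).1 : ℤ) - (hevp l m).2 = (hpoly l).eval (m : ℤ) := by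
  induction l with
  | nil => simp [hevp, hpoly]
  | cons a l ih =>
    have h : hevp (a :: l) m = (a.1 + m * (hevp l m).1, a.2 + m * (hevp l m).2) := rfl
    rw [h, hpoly_cons, eval_add, eval_C, eval_mul, eval_X, ← ih]
    push_cast
    ring

theorem hevn_eq (l : List (ℕ × ℕ)) (m : ℕ) :
    ((hevn l m).1 : ℤ) - (hevn l m).2 = (hpoly l).eval (-(m : ℤ)) := by
  induction l with
  | nil => simp [hevn, hpoly]
  | cons a l ih =>
    have h : hevn (a :: l) m = (a.1 + m * (hevn l m).2, a.2 + m * (hevn l m).1) := rfl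
    rw [h, hpoly_cons, eval_add, eval_C, eval_mul, eval_X, ← ih]
    push_cast
    ring

/-- The test for integer roots. -/
def rtest (l : List (ℕ × ℕ)) : Bool :=
  (List.range ((l.headD (0, 0)).1 + (l.headD (0, 0)).2 + 1)).all (fun m =>
    (!(decide ((hevp l m).1 = (hevp l m).2))) && (!(decide ((hevn l m).1 = (hevn l m).2))))

theorem rtest_iff (l : List (ℕ × ℕ)) : rtest l = true ↔ ∀ r : ℤ, (hpoly l).eval r ≠ 0 := by
  have hp : ∀ m : ℕ, (hevp l m).1 = (hevp l m).2 ↔ (hpoly l).eval (m : ℤ) = 0 := by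
    intro m
    rw [← hevp_eq, sub_eq_zero]
    exact_mod_cast Iff.rfl
  have hn : ∀ m : ℕ, (hevn l m).1 = (hevn l m).2 ↔ (hpoly l).eval (-(m : ℤ)) = 0 := by
    intro m
    rw [← hevn_eq, sub_eq_zero]
    exact_mod_cast Iff.rfl
  unfold rtest
  simp only [List.all_eq_true, List.mem_range, Bool.and_eq_true, Bool.not_eq_true',
    decide_eq_false_iff_not, hp, hn]
  constructor
  · intro h r hr
    have h0 := (h 0 (Nat.succ_pos _)).1
    rw [Nat.cast_zero] at h0
    cases l with
    | nil =>
      rw [hpoly_nil, eval_one] at hr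
      exact one_ne_zero hr
    | cons a l =>
      rw [hpoly_cons, eval_add, eval_C, eval_mul, eval_X] at hr h0
      rw [zero_mul, add_zero] at h0
      have hdvd : r ∣ (a.1 : ℤ) - a.2 := ⟨-(hpoly l).eval r, by linarith⟩
      have hle : r.natAbs ≤ ((a.1 : ℤ) - a.2).natAbs :=
        Nat.le_of_dvd (Int.natAbs_pos.2 h0) (Int.natAbs_dvd_natAbs.2 hdvd)
      have hle2 : r.natAbs < a.1 + a.2 + 1 := by omega
      have h3 := h r.natAbs hle2
      rw [hpoly_cons] at h3
      rcases Int.natAbs_eq r with h4 | h4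
      · apply h3.1
        rw [← h4, eval_add, eval_C, eval_mul, eval_X]
        exact hr
      · apply h3.2
        rw [← h4, eval_add, eval_C, eval_mul, eval_X]
        exact hr
  · intro h m _
    exact ⟨h _, h _⟩

@[fun_prop] theorem primrec_hevp {α : Type} [Primcodable α] {l : α → List (ℕ × ℕ)} {m : α → ℕ}
    (hl : Primrec l) (hm : Primrec m) : Primrec (fun a => hevp (l a) (m a)) := by
  unfold hevp
  fun_prop

@[fun_prop] theorem primrec_hevn {α : Type} [Primcodable α] {l : α → List (ℕ × ℕ)} {m : α → ℕ}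
    (hl : Primrec l) (hm : Primrec m) : Primrec (fun a => hevn (l a) (m a)) := by
  unfold hevn
  fun_prop

@[fun_prop] theorem primrec_rtest {α : Type} [Primcodable α] {l : α → List (ℕ × ℕ)}
    (hl : Primrec l) : Primrec (fun a => rtest (l a)) := by
  unfold rtest
  fun_prop

end Pool.Agent.Work.MP_9ac17e_al.Rig
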