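import Pool.Agent.Work.MP_9ac17e_al.Rig.B
import Pool.Agent.Work.MP_9ac17e_al.Rat

/-!
# Certificates of non-isomorphism over the rationals
-/

set_option autoImplicit false

namespace Pool.Agent.Work.MP_9ac17e_al.Rig

open Polynomial

/-- Codes of rational numbers. -/
abbrev QC : Type := (ℕ × ℕ) × ℕ

section coded

variable (N : NumF ℚ QC)

/-- `y h(z)` for `z = X_k`, `y = X_(k+1)`. -/
def hrel (k : ℕ) (l : List (ℕ × ℕ)) : Rel QC :=
  l.foldr (fun a acc => (((a, 0) : QC), [k + 1]) :: acc.map (fun t => (t.1, k :: t.2)))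
    [(N.one, [k + 1])]

/-- The system `q` with the additional equations `z = ∑ c_i X_i`, `y h(z) = 1`. -/
def xsys0 (q : ℕ × List (Rel QC)) (cs : List QC) (l : List (ℕ × ℕ)) : ℕ × List (Rel QC) :=
  (q.1 + 2,
    ((N.one, [q.1]) :: (List.range q.1).map (fun i => (N.neg (N.ent cs i), [i]))) ::
    (((N.neg N.one, []) :: hrel N q.1 l) :: q.2))

/-- The system which says that `X` is an isomorphism, with the additional equations
`z = ∑ c_i X_i`, `y h(z) = 1`. -/
def xsys (q : FD QC × FD QC) (cs : List QC) (l : List (ℕ × ℕ)) : ℕ × List (Rel QC) :=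
  xsys0 N (csys N q) cs l

/-- Certificates of non-isomorphism. -/
def NoCert (q : FD QC × FD QC) : Prop :=
  ¬ (q.1.1 = q.2.1) ∨ ∃ w : List QC × List (ℕ × ℕ), rtest w.2 = true ∧
    (1 : MvPolynomial (Fin (xsys N q w.1 w.2).1) ℚ) ∈ cidl N.val (xsys N q w.1 w.2)

@[fun_prop] theorem primrec_hrel {α : Type} [Primcodable α] {k : α → ℕ}
    {l : α → List (ℕ × ℕ)} (hk : Primrec k) (hl : Primrec l) :
    Primrec (fun a => hrel N (k a) (l a)) := by
  unfold hrel
  fun_prop

theorem primrec_xsys0 : Primrec (fun x : (ℕ × List (Rel QC)) × (List QC × List (ℕ × ℕ)) =>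
    xsys0 N x.1 x.2.1 x.2.2) := by
  unfold xsys0
  fun_prop

theorem primrec_xsys : Primrec (fun x : (FD QC × FD QC) × (List QC × List (ℕ × ℕ)) =>
    xsys N x.1 x.2.1 x.2.2) :=
  (primrec_xsys0 N).comp (((primrec_csys N).comp Primrec.fst).pair Primrec.snd)

theorem sig_noCert (hs : Function.Surjective N.val) :
    PR.Sig (fun q : FD QC × FD QC => NoCert N q) := by
  unfold NoCert
  refine PR.Sig.or (PR.Sig.of_dec (PR.decide_not (by fun_prop))) (PR.Sig.ex
    (P := fun x : (FD QC × FD QC) × (List QC × List (ℕ × ℕ)) => rtest x.2.2 = true ∧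
      (1 : MvPolynomial (Fin (xsys N x.1 x.2.1 x.2.2).1) ℚ) ∈
        cidl N.val (xsys N x.1 x.2.1 x.2.2)) ?_)
  refine PR.Sig.and (PR.Sig.of_bool (by fun_prop)) ?_
  exact PR.Sig.comp (sig_one_mem N hs) (f := fun x : (FD QC × FD QC) × (List QC × List (ℕ × ℕ)) =>
    xsys N x.1 x.2.1 x.2.2) (primrec_xsys N)

/-! ### Semantics -/

variable {L : Type} [Field L] [Algebra ℚ L]

theorem cev_map (X : ℕ → L) (k : ℕ) (r : Rel QC) :
    cev N.val X (r.map (fun t => (t.1, k :: t.2))) = X k * cev N.val X r := by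
  induction r with
  | nil => simp [cev]
  | cons c r ih =>
    rw [List.map_cons, cev_cons, cev_cons, ih, List.map_cons, List.prod_cons]
    ring

theorem cev_hrel (hN : N.val = valQ) (X : ℕ → L) (k : ℕ) (l : List (ℕ × ℕ)) :
    cev N.val X (hrel N k l) = X (k + 1) * aeval (X k) (hpoly l) := by
  induction l with
  | nil => simp [hrel, hpoly, cev, N.val_one]
  | cons a l ih =>
    have h : hrel N k (a :: l) = (((a, 0) : QC), [k + 1]) ::
      (hrel N k l).map (fun t => (t.1, k :: t.2)) := rfl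
    rw [h, cev_cons, cev_map, ih, hpoly_cons, map_add, aeval_C, map_mul, aeval_X, hN]
    simp only [valQ, List.map_cons, List.map_nil, List.prod_cons, List.prod_nil, mul_one,
      Nat.cast_zero, zero_add, div_one, map_sub, map_natCast]
    ring

/-- The meaning of the extended system. -/
theorem xsys_iff (hN : N.val = valQ) (q : FD QC × FD QC) (cs : List QC) (l : List (ℕ × ℕ))
    (X : ℕ → L) : (∀ r ∈ (xsys N q cs l).2, cev N.val X r = 0) ↔
      X (csys N q).1 = ∑ i : Fin (csys N q).1, algebraMap ℚ L (N.val (N.ent cs i)) * X i ∧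
      X ((csys N q).1 + 1) * aeval (X (csys N q).1) (hpoly l) = 1 ∧
      ∀ r ∈ (csys N q).2, cev N.val X r = 0 := by
  unfold xsys xsys0
  simp only [List.forall_mem_cons]
  refine and_congr ?_ (and_congr ?_ Iff.rfl)
  · rw [cev_cons, cev_range]
    simp only [N.val_neg, N.val_one, List.map_cons, List.map_nil, List.prod_cons, List.prod_nil,
      mul_one, one_mul, map_one, map_neg, neg_mul, Finset.sum_neg_distrib]
    rw [← sub_eq_add_neg, sub_eq_zero]
  · rw [cev_cons, cev_hrel N hN]
    simp only [N.val_neg, N.val_one, List.map_nil, List.prod_nil, mul_one, map_one, map_neg]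
    constructor
    · intro h
      linear_combination h
    · intro h
      linear_combination h

/-- Only the values of the variables of the system matter. -/
theorem csys_congr {n : ℕ} {lc ld : List QC} {X X' : ℕ → L} (h : ∀ t < 2 * (n * n), X t = X' t)
    (hX : ∀ r ∈ (csys N ((n, lc), (n, ld))).2, cev N.val X r = 0) :
    ∀ r ∈ (csys N ((n, lc), (n, ld))).2, cev N.val X' r = 0 := by
  have hlt : ∀ i j : Fin n, (i : ℕ) * n + j < n * n := fun i j => by
    calc (i : ℕ) * n + j < i * n + n := Nat.add_lt_add_left j.2 _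
      _ = (i + 1) * n := by ring
      _ ≤ n * n := Nat.mul_le_mul_right n i.2
  have h1 : ∀ i j : Fin n, X (i * n + j) = X' (i * n + j) := fun i j =>
    h _ (by have := hlt i j; omega)
  have h2 : ∀ i j : Fin n, X (n * n + (i * n + j)) = X' (n * n + (i * n + j)) := fun i j =>
    h _ (by have := hlt i j; omega)
  rw [csys_iff] at hX ⊢
  simpa only [h1, h2] using hX

theorem cev_algebraMap (X : ℕ → ℚ) (r : Rel QC) :
    cev N.val (fun t => algebraMap ℚ L (X t)) r = algebraMap ℚ L (cev N.val X r) := by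
  induction r with
  | nil => simp [cev]
  | cons c r ih =>
    rw [cev_cons, cev_cons, ih, map_add, map_mul, map_list_prod, List.map_map]
    rfl

theorem one_not_mem_of_sol (q : ℕ × List (Rel QC)) (x : Fin q.1 → L)
    (h : ∀ r ∈ q.2, cev N.val (ext0 x) r = 0) :
    ¬ (1 : MvPolynomial (Fin q.1) ℚ) ∈ cidl N.val q := by
  intro h1
  have hle : cidl N.val q ≤ RingHom.ker (MvPolynomial.aeval (R := ℚ) x) := by
    refine Ideal.span_le.2 ?_
    rintro f ⟨r, hr, rfl⟩
    rw [SetLike.mem_coe, RingHom.mem_ker]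
    exact (aeval_csem N.val x r).trans (h r hr)
  have h2 := hle h1
  rw [RingHom.mem_ker, map_one] at h2
  exact one_ne_zero h2

/-- **Soundness**: a certificate excludes isomorphisms over the rationals. -/
theorem noCert_sound (hN : N.val = valQ) (q : FD QC × FD QC) (h : NoCert N q) :
    ¬ FDIso N.val q.1 q.2 := by
  intro hiso
  obtain ⟨⟨n, lc⟩, ⟨n', ld⟩⟩ := q
  have h0 : (fun a => algebraMap ℚ ℚ (N.val a)) = N.val := by
    funext a
    simp
  rw [← h0, fdIso_iff_solv] at hiso
  obtain ⟨hn, x, hx⟩ := hiso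
  have hn' : n = n' := hn
  subst hn'
  rcases h with h | ⟨⟨cs, l⟩, hr, h1⟩
  · exact h rfl
  rw [rtest_iff] at hr
  have hk : (csys N ((n, lc), (n, ld))).1 = 2 * (n * n) := rfl
  -- the rational solution
  have hx' : ∀ r ∈ (csys N ((n, lc), (n, ld))).2, cev N.val (ext0 x) r = 0 := by
    intro r hr
    rw [← aeval_csem]
    exact hx r hr
  set z : ℚ := ∑ i : Fin (2 * (n * n)), N.val (N.ent cs i) * ext0 x i with hz
  have hzne : aeval z (hpoly l) ≠ 0 := by
    intro hz0
    have h2 : IsIntegral ℤ z := ⟨hpoly l, hpoly_monic l, hz0⟩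
    obtain ⟨m, hm⟩ := IsIntegrallyClosed.isIntegral_iff.1 h2
    apply hr m
    rw [← hm, aeval_algebraMap_apply, coe_aeval_eq_eval] at hz0
    exact (algebraMap ℤ ℚ).injective_int (by rw [hz0, map_zero])
  -- the extended rational solution
  let X : ℕ → ℚ := fun t => if t < 2 * (n * n) then ext0 x t else if t = 2 * (n * n) then z
    else (aeval z (hpoly l))⁻¹
  have hX : ∀ t < 2 * (n * n), X t = ext0 x t := fun t ht => by
    show (if t < 2 * (n * n) then ext0 x t else _) = _
    rw [if_pos ht]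
  have hXk : X (2 * (n * n)) = z := by
    show (if 2 * (n * n) < 2 * (n * n) then _ else if 2 * (n * n) = 2 * (n * n) then z else _) = z
    rw [if_neg (lt_irrefl _), if_pos rfl]
  have hXk1 : X (2 * (n * n) + 1) = (aeval z (hpoly l))⁻¹ := by
    show (if 2 * (n * n) + 1 < 2 * (n * n) then _ else if 2 * (n * n) + 1 = 2 * (n * n) then z
      else _) = _
    rw [if_neg (by omega), if_neg (by omega)]
  have hx2 : (xsys N ((n, lc), (n, ld)) cs l).1 = 2 * (n * n) + 2 := rfl
  have hext : ∀ t < 2 * (n * n) + 2,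
      ext0 (fun t : Fin (xsys N ((n, lc), (n, ld)) cs l).1 => X t) t = X t := fun t ht =>
    ext0_lt _ (by rw [hx2]; exact ht)
  refine one_not_mem_of_sol N _ (fun t : Fin (xsys N ((n, lc), (n, ld)) cs l).1 => X t) ?_ h1
  rw [xsys_iff N hN]
  refine ⟨?_, ?_, csys_congr N (fun t ht => ?_) hx'⟩
  · rw [hk, hext _ (by omega), hXk, hz]
    refine Finset.sum_congr rfl (fun i _ => ?_)
    rw [hext _ (by have := i.2; omega), hX i i.2]
    rfl
  · rw [hk, hext _ (by omega), hext _ (by omega), hXk1, hXk]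
    exact inv_mul_cancel₀ hzne
  · rw [hext _ (by omega), hX t ht]

end coded

end Pool.Agent.Work.MP_9ac17e_al.Rig
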