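import Pool.Agent.Work.MP_9ac17e_al.Rig.C
import Pool.Agent.Work.MP_9ac17e_al.Main

/-!
# Isomorphisms of normal form data, explicitly
-/

set_option autoImplicit false

namespace Pool.Agent.Work.MP_9ac17e_al.Rig

open EncIso

section

variable {K : Type} [Field K] (D D' : ND K)

/-- The matrix `s` is the matrix of an isomorphism of normal form data. -/
def IsN (s : Fin D'.n × Fin D.n → K) : Prop :=
  ∃ g : (Fin D.n → K) ≃ₗ[K] (Fin D'.n → K),
    (∀ z, (D.P z = 0 ↔ D'.P (tsq g.toLinearMap z) = 0) ∧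
      (D.P z = 0 → g (D.M z) = D'.M (tsq g.toLinearMap z))) ∧
    ∀ a b, g (Pi.single b 1) a = s (a, b)

/-- The `V`-block of an isomorphism of the encoding algebras. -/
theorem isN_of_iso (e : (K × (Fin D.n → K) × (Fin D.n → K) × (Fin D.n × Fin D.n → K)) ≃ₗ[K]
      (K × (Fin D'.n → K) × (Fin D'.n → K) × (Fin D'.n × Fin D'.n → K)))
    (he : ∀ s t, e (D.mul s t) = D'.mul (e s) (e t)) :
    IsN D D' (fun ab => (e (0, Pi.single ab.2 1, 0, 0)).2.1 ab.1) := by
  have h0 : e (1, 0, 0, 0) = (1, 0, 0, 0) := by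
    have hh := he (1, 0, 0, 0) (1, 0, 0, 0)
    have h1 : D.mul (1, 0, 0, 0) (1, 0, 0, 0) = (1, 0, 0, 0) := by
      simp [ND.mul, tens_zero_left]
    rw [h1] at hh
    have hne : e (1, 0, 0, 0) ≠ 0 := by
      intro h
      have := (LinearEquiv.map_eq_zero_iff e).1 h
      simp at this
    generalize e (1, 0, 0, 0) = f at hh hne
    obtain ⟨a, v, u, t⟩ := f
    simp only [ND.mul, Prod.mk.injEq] at hh
    obtain ⟨q1, q2, q3, q4⟩ := hh
    subst q2
    rw [tens_zero_left, map_zero, smul_zero, add_zero] at q3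
    rw [tens_zero_left, map_zero] at q4
    subst q3
    subst q4
    have : a ≠ 0 := by
      rintro rfl
      exact hne rfl
    have : a = 1 := by
      have := mul_left_cancel₀ this (show a * 1 = a * a by rw [mul_one]; exact q1)
      exact this.symm
    rw [this]
  have h1 : ∀ s, (e s).1 = s.1 := by
    intro s
    have hh := he s (1, 0, 0, 0)
    rw [h0] at hh
    have h2 : D.mul s (1, 0, 0, 0) = s.1 • (1, 0, 0, 0) := by
      simp [ND.mul, tens_zero_right]
    rw [h2, map_smul, h0] at hh
    have := congrArg Prod.fst hh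
    simpa [ND.mul] using this.symm
  have h2 : ∀ s, e (0, 0, s.2.1, 0) = (0, 0, (e s).2.1, 0) := by
    intro s
    have hh := he (1, 0, 0, 0) s
    rw [h0] at hh
    have h3 : D.mul (1, 0, 0, 0) s = s.1 • (1, 0, 0, 0) + (0, 0, s.2.1, 0) := by
      simp [ND.mul, tens_zero_left]
    rw [h3, map_add, map_smul, h0] at hh
    have h4 : D'.mul (1, 0, 0, 0) (e s) = s.1 • (1, 0, 0, 0) + (0, 0, (e s).2.1, 0) := by
      simp [ND.mul, tens_zero_left, h1]
    rw [h4] at hh
    exact add_left_cancel hh
  let g0 : (Fin D.n → K) →ₗ[K] (Fin D'.n → K) :=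
    { toFun := fun v => (e (0, v, 0, 0)).2.1
      map_add' := fun v w => by
        have : ((0 : K), v + w, (0 : Fin D.n → K), (0 : Fin D.n × Fin D.n → K)) =
          (0, v, 0, 0) + (0, w, 0, 0) := by simp
        rw [this, map_add]
        rfl
      map_smul' := fun a v => by
        have : ((0 : K), a • v, (0 : Fin D.n → K), (0 : Fin D.n × Fin D.n → K)) =
          a • (0, v, 0, 0) := by simp
        rw [this, map_smul]
        rfl }
  have g1 : ∀ v, e (0, 0, v, 0) = (0, 0, g0 v, 0) := fun v => h2 (0, v, 0, 0)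
  have g2 : ∀ s, (e s).2.1 = g0 s.2.1 := by
    intro s
    have := (h2 s).symm.trans (g1 s.2.1)
    simpa using this
  have ginj : Function.Injective g0 := by
    rw [injective_iff_map_eq_zero]
    intro v hv
    have := g1 v
    rw [hv] at this
    have h5 : e (0, 0, v, 0) = 0 := this
    rw [LinearEquiv.map_eq_zero_iff] at h5
    simpa using h5
  have gsurj : Function.Surjective g0 := by
    intro w
    obtain ⟨s, hs⟩ := e.surjective (0, w, 0, 0)
    refine ⟨s.2.1, ?_⟩
    rw [← g2 s, hs]
  have key : ∀ z, e (0, 0, D.M z, D.P z) = (0, 0, D'.M (tsq g0 z), D'.P (tsq g0 z)) := by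
    have := ext_tens (K := K)
      (e.toLinearMap.comp ((LinearMap.inr K K _).comp ((LinearMap.inr K (Fin D.n → K) _).comp
        (D.M.prod D.P))))
      ((LinearMap.inr K K _).comp ((LinearMap.inr K (Fin D'.n → K) _).comp
        ((D'.M.comp (tsq g0)).prod (D'.P.comp (tsq g0))))) (fun x y => ?_)
    · intro z
      have h3 := this z
      simpa using h3
    · have hh := he (0, x, 0, 0) (0, y, 0, 0)
      have h3 : D.mul (0, x, 0, 0) (0, y, 0, 0) = (0, 0, D.M (tens x y), D.P (tens x y)) := by
        simp [ND.mul]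
      rw [h3] at hh
      have h4 : D'.mul (e (0, x, 0, 0)) (e (0, y, 0, 0)) =
          (0, 0, D'.M (tens (g0 x) (g0 y)), D'.P (tens (g0 x) (g0 y))) := by
        simp only [ND.mul, h1, g2]
        simp
      rw [h4] at hh
      simp only [LinearMap.comp_apply, LinearMap.prod_apply, Function.prod_apply,
        LinearMap.inr_apply, LinearEquiv.coe_coe, tsq_tens]
      exact hh
  refine ⟨LinearEquiv.ofBijective g0 ⟨ginj, gsurj⟩, fun z => ?_, fun a b => rfl⟩
  have hlin : (LinearEquiv.ofBijective g0 ⟨ginj, gsurj⟩).toLinearMap = g0 := by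
    ext1
    rfl
  rw [hlin]
  have fw : D.P z = 0 → D'.P (tsq g0 z) = 0 ∧ g0 (D.M z) = D'.M (tsq g0 z) := by
    intro hz
    have h3 := key z
    rw [hz, g1] at h3
    simp only [Prod.mk.injEq, true_and] at h3
    exact ⟨h3.2.symm, h3.1⟩
  refine ⟨⟨fun hz => (fw hz).1, fun hz => ?_⟩, fun hz => (fw hz).2⟩
  obtain ⟨u, hu⟩ := gsurj (D'.M (tsq g0 z))
  have h3 := key z
  rw [hz, ← hu, ← g1 u] at h3
  have h4 := e.injective h3
  simp only [Prod.mk.injEq, true_and] at h4
  exact h4.2

end

section coded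

variable (N : NumF ℚ QC) {L : Type} [Field L] [Algebra ℚ L]

/-- The index of the variable which stands for the entry `(a, b)` of the `V`-block. -/
def vix (n : ℕ) (ab : Fin n × Fin n) : ℕ := (ixv ab.1 : Fin (edim n)) * edim n + (ixv ab.2 : Fin (edim n))

theorem vix_lt (n : ℕ) (ab : Fin n × Fin n) : vix n ab < 2 * (edim n * edim n) := by
  have h1 : ((ixv ab.1 : Fin (edim n)) : ℕ) * edim n + (ixv ab.2 : Fin (edim n)) <
      edim n * edim n := lt_sq ((ixv ab.1 : Fin (edim n)), (ixv ab.2 : Fin (edim n)))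
  unfold vix
  omega

theorem phi_symm_single (L : Type) [Field L] (n : ℕ) (b : Fin n) :
    (phi L n).symm (0, Pi.single b 1, 0, 0) = Pi.single (ixv b : Fin (edim n)) 1 := by
  rw [LinearEquiv.symm_apply_eq, phi_apply]
  have q0 : (Pi.single (ixv b : Fin (edim n)) (1 : L) : Fin (edim n) → L) (ix0 n) = 0 := by
    rw [Pi.single_eq_of_ne]
    intro h
    have := congrArg Fin.val h
    simp only [ix0, ixv] at this
    omega
  have q1 : (fun a : Fin n => (Pi.single (ixv b : Fin (edim n)) (1 : L) : Fin (edim n) → L)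
      (ixv a)) = Pi.single b 1 := by
    funext a
    by_cases hab : a = b
    · subst hab
      rw [Pi.single_eq_same, Pi.single_eq_same]
    · rw [Pi.single_eq_of_ne hab, Pi.single_eq_of_ne]
      intro h
      apply hab
      have := congrArg Fin.val h
      simp only [ixv] at this
      exact Fin.ext (by omega)
  have q2 : (fun a : Fin n => (Pi.single (ixv b : Fin (edim n)) (1 : L) : Fin (edim n) → L)
      (ixu a)) = 0 := by
    funext a
    rw [Pi.single_eq_of_ne]
    · rfl
    · intro h
      have := congrArg Fin.val h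
      simp only [ixv, ixu] at this
      have := b.2
      omega
  have q3 : (fun a : Fin n × Fin n => (Pi.single (ixv b : Fin (edim n)) (1 : L) :
      Fin (edim n) → L) (ixt a)) = 0 := by
    funext a
    rw [Pi.single_eq_of_ne]
    · rfl
    · intro h
      have := congrArg Fin.val h
      simp only [ixv, ixt] at this
      have := b.2
      omega
  rw [q0, q1, q2, q3]

theorem phi_entry {L : Type} [Field L] {n : ℕ} (A : Matrix (Fin (edim n)) (Fin (edim n)) L)
    (e0 : (Fin (edim n) → L) ≃ₗ[L] (Fin (edim n) → L)) (hv : ∀ w, e0 w = A.mulVec w)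
    (a b : Fin n) : (phi L n (e0 ((phi L n).symm (0, Pi.single b 1, 0, 0)))).2.1 a =
      A (ixv a) (ixv b) := by
  rw [phi_symm_single, phi_apply, hv, Matrix.mulVec_single_one]
  rfl

/-- The `V`-block of a solution of the system. -/
theorem isN_of_sol {n : ℕ} {lc lc' : List QC × List QC} (X : ℕ → L)
    (h : ∀ r ∈ (csys N (ecode N (n, lc), ecode N (n, lc'))).2, cev N.val X r = 0) :
    IsN (ndOf (fun a => algebraMap ℚ L (N.val a)) (n, lc))
      (ndOf (fun a => algebraMap ℚ L (N.val a)) (n, lc')) (fun ab => X (vix n ab)) := by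
  have he : ecode N (n, lc) = (edim n, (ecode N (n, lc)).2) := rfl
  have he' : ecode N (n, lc') = (edim n, (ecode N (n, lc')).2) := rfl
  rw [he, he'] at h
  obtain ⟨h1, h2, h3⟩ := (csys_iff N (edim n) _ _ X).1 h
  set A : Matrix (Fin (edim n)) (Fin (edim n)) L := fun i j => X (i * edim n + j) with hA
  set B : Matrix (Fin (edim n)) (Fin (edim n)) L :=
    fun i j => X (edim n * edim n + (i * edim n + j)) with hB
  have hAB : A * B = 1 := by
    ext i k
    rw [Matrix.mul_apply, Matrix.one_apply]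
    simp only [Fin.ext_iff]
    exact h1 i k
  have hBA : B * A = 1 := by
    ext i k
    rw [Matrix.mul_apply, Matrix.one_apply]
    simp only [Fin.ext_iff]
    exact h2 i k
  have hom := (hom_iff (fun a => algebraMap ℚ L (N.val a)) (edim n) _ _ A).2 h3
  let e0 : (Fin (edim n) → L) ≃ₗ[L] (Fin (edim n) → L) := Matrix.toLin'OfInv hBA hAB
  have hv : ∀ w, e0 w = A.mulVec w := fun w => Matrix.toLin'_apply _ _
  let e : (L × (Fin n → L) × (Fin n → L) × (Fin n × Fin n → L)) ≃ₗ[L]
      (L × (Fin n → L) × (Fin n → L) × (Fin n × Fin n → L)) :=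
    (phi L n).symm.trans (e0.trans (phi L n))
  have hmul : ∀ s t : L × (Fin n → L) × (Fin n → L) × (Fin n × Fin n → L),
      e ((ndOf (fun a => algebraMap ℚ L (N.val a)) (n, lc)).mul s t) =
      (ndOf (fun a => algebraMap ℚ L (N.val a)) (n, lc')).mul (e s) (e t) := by
    intro s t
    have k1 := phi_symm_mul (N.base L) (n, lc) s t
    have k2 := phi_mul (N.base L) (n, lc') (e0 ((phi L n).symm s)) (e0 ((phi L n).symm t))
    refine (congrArg (fun z => phi L n (e0 z)) k1).trans (Eq.trans ?_ k2)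
    refine congrArg (phi L n) ?_
    refine (hv _).trans ((hom _ _).trans ?_)
    exact congrArg₂ (fdMul (fun a => algebraMap ℚ L (N.val a)) (ecode N (n, lc')))
      (hv _).symm (hv _).symm
  obtain ⟨g, hg, hgs⟩ := isN_of_iso (ndOf (fun a => algebraMap ℚ L (N.val a)) (n, lc))
    (ndOf (fun a => algebraMap ℚ L (N.val a)) (n, lc')) e hmul
  refine ⟨g, hg, fun a b => (hgs a b).trans ?_⟩
  exact phi_entry A e0 hv a b

end coded

end Pool.Agent.Work.MP_9ac17e_al.Rig
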