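import Pool.Agent.Work.MP_9ac17e_al.Rig.D
import Pool.Agent.Work.MP_9ac17e_al.Iso

/-!
# Rational isomorphisms of normal form data, finitely many isomorphisms
-/

set_option autoImplicit false

namespace Pool.Agent.Work.MP_9ac17e_al

section

variable {K C : Type} [Field K] (val : C → K)

/-- The map `g` between the free algebras induces an isomorphism of the presented algebras. -/
def IsPIso (p q : Pres C) (g : FA K p.1 → FA K q.1) : Prop :=
  ((∀ x y, g (x + y) = g x + g y) ∧ ∀ (a : K) x, g (a • x) = a • g x) ∧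
    ((∀ x, g x ∈ idl val q ↔ x ∈ idl val p) ∧ ∀ y, ∃ x, y - g x ∈ idl val q) ∧
    ∀ x y, g (x * y) - g x * g y ∈ idl val q

theorem pIso_def (p q : Pres C) : PIso val p q ↔ ∃ g, IsPIso val p q g := Iff.rfl

/-- There are only finitely many isomorphisms between the presented algebras: every map which
induces an isomorphism coincides, modulo the ideal, with one of finitely many maps. -/
def FinIsos (p q : Pres C) : Prop :=
  ∃ T : List (FA K p.1 → FA K q.1), ∀ g, IsPIso val p q g →
    ∃ g' ∈ T, ∀ x, g x - g' x ∈ idl val q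

end

namespace Rig

open EncIso

section

variable {A B K : Type} [Field K] [AddCommGroup A] [Module K A] [AddCommGroup B] [Module K B]
  (m : A →ₗ[K] A →ₗ[K] A) (m' : B →ₗ[K] B →ₗ[K] B)

/-- `algIso_of_niso`, explicitly. -/
theorem exists_algIso {D D' : ND K}
    {x : Fin D.n → A} {x' : Fin D'.n → B} (hx : Realises m D x) (hx' : Realises m' D' x')
    (g : (Fin D.n → K) ≃ₗ[K] (Fin D'.n → K))
    (hg : ∀ z, (D.P z = 0 ↔ D'.P (tsq g.toLinearMap z) = 0) ∧
      (D.P z = 0 → g (D.M z) = D'.M (tsq g.toLinearMap z))) :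
    ∃ φ : A ≃ₗ[K] B, (∀ u v, φ (m u v) = m' (φ u) (φ v)) ∧ ∀ c, φ (vec x c) = vec x' (g c) := by
  obtain ⟨φ, hφ, hφv⟩ := exists_hom_of_coord m m' hx hx' g.toLinearMap
    (fun z hz => ⟨(hg z).1.1 hz, (hg z).2 hz⟩)
  have hgg : ∀ z, tsq g.toLinearMap (tsq g.symm.toLinearMap z) = z :=
    tsq_tsq g.symm.toLinearMap g.toLinearMap (fun c => g.apply_symm_apply c)
  obtain ⟨ψ, hψ, hψv⟩ := exists_hom_of_coord m' m hx' hx g.symm.toLinearMap (by
    intro z hz
    have h1 := hg (tsq g.symm.toLinearMap z)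
    rw [hgg] at h1
    refine ⟨h1.1.2 hz, ?_⟩
    rw [← h1.2 (h1.1.2 hz)]
    exact g.symm_apply_apply _)
  have h1 : ψ ∘ₗ φ = LinearMap.id := by
    refine hom_ext m m hx.gen (fun u v => ?_) (fun u v => rfl) (fun v hv => ?_)
    · rw [LinearMap.comp_apply, hφ, hψ]
      rfl
    · obtain ⟨c, rfl⟩ := (mem_span_iff x v).1 hv
      rw [LinearMap.comp_apply, hφv, hψv, LinearMap.id_apply]
      exact congrArg (vec x) (g.symm_apply_apply c)
  have h2 : φ ∘ₗ ψ = LinearMap.id := by
    refine hom_ext m' m' hx'.gen (fun u v => ?_) (fun u v => rfl) (fun v hv => ?_)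
    · rw [LinearMap.comp_apply, hψ, hφ]
      rfl
    · obtain ⟨c, rfl⟩ := (mem_span_iff x' v).1 hv
      rw [LinearMap.comp_apply, hψv, hφv, LinearMap.id_apply]
      exact congrArg (vec x') (g.apply_symm_apply c)
  exact ⟨LinearEquiv.ofLinearMap φ ψ h2 h1, fun u v => hφ u v, hφv⟩

end

section coded

variable (N : NumF ℚ QC) {L : Type} [Field L] [Algebra ℚ L]

/-- A rational matrix which is an isomorphism over `L` is an isomorphism over `ℚ`. -/
theorem nIso_of_rational (c c' : NC QC) (r : Fin c'.1 × Fin c.1 → ℚ)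
    (h : IsN (ndOf (fun a => algebraMap ℚ L (N.val a)) c)
      (ndOf (fun a => algebraMap ℚ L (N.val a)) c') (fun ab => algebraMap ℚ L (r ab))) :
    NIso (ndOf N.val c) (ndOf N.val c') := by
  obtain ⟨g, hg, hgs⟩ := h
  change (Fin c.1 → L) ≃ₗ[L] (Fin c'.1 → L) at g
  have hinjL : Function.Injective (algebraMap ℚ L) := (algebraMap ℚ L).injective
  let R : Matrix (Fin c'.1) (Fin c.1) ℚ := Matrix.of fun a b => r (a, b)
  let g0 : (Fin c.1 → ℚ) →ₗ[ℚ] (Fin c'.1 → ℚ) := R.mulVecLin
  have hgs' : ∀ (a : Fin c'.1) (b : Fin c.1), g (Pi.single b 1) a = algebraMap ℚ L (r (a, b)) :=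
    hgs
  have hg0s : ∀ (a : Fin c'.1) (b : Fin c.1), g0 (Pi.single b 1) a = r (a, b) := by
    intro a b
    show (R.mulVec (Pi.single b 1)) a = _
    rw [Matrix.mulVec_single_one]
    rfl
  have hg0 : ∀ v : Fin c.1 → ℚ, g (fun i => algebraMap ℚ L (v i)) =
      fun a => algebraMap ℚ L (g0 v a) := by
    intro v
    have e1 : (fun i => algebraMap ℚ L (v i)) =
        ∑ b : Fin c.1, algebraMap ℚ L (v b) • (Pi.single b (1 : L) : Fin c.1 → L) :=
      EncIso.sum_single _
    funext a
    rw [e1, map_sum, Finset.sum_apply]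
    have e2 : g0 v a = ∑ b : Fin c.1, r (a, b) * v b := rfl
    rw [e2, map_sum]
    refine Finset.sum_congr rfl (fun b _ => ?_)
    rw [map_smul, Pi.smul_apply, hgs', smul_eq_mul, map_mul, mul_comm]
  have hι : ∀ {α : Type} {v w : α → ℚ},
      (fun i => algebraMap ℚ L (v i)) = (fun i => algebraMap ℚ L (w i)) → v = w := by
    intro α v w h
    funext i
    exact hinjL (congrFun h i)
  have hι0 : ∀ {α : Type} {v : α → ℚ},
      (fun i => algebraMap ℚ L (v i)) = (0 : α → L) ↔ v = 0 := by
    intro α v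
    constructor
    · intro h
      refine hι (h.trans ?_)
      funext i
      exact (map_zero _).symm
    · rintro rfl
      funext i
      exact map_zero _
  have hinj : Function.Injective g0 := by
    rw [injective_iff_map_eq_zero]
    intro v hv
    have h1 := hg0 v
    rw [hv] at h1
    have h2 : g (fun i => algebraMap ℚ L (v i)) = 0 := by
      rw [h1]
      funext a
      exact map_zero _
    rw [LinearEquiv.map_eq_zero_iff] at h2
    exact hι0.1 h2
  have hfin : Module.finrank ℚ (Fin c.1 → ℚ) = Module.finrank ℚ (Fin c'.1 → ℚ) := by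
    have := g.finrank_eq
    rw [Module.finrank_fin_fun, Module.finrank_fin_fun] at this ⊢
    exact this
  have htsq : ∀ z : Fin c.1 × Fin c.1 → ℚ,
      tsq g.toLinearMap (fun cd => algebraMap ℚ L (z cd)) =
        fun ab => algebraMap ℚ L (tsq g0 z ab) := by
    intro z
    funext ab
    show ∑ i : Fin c.1, ∑ j : Fin c.1, algebraMap ℚ L (z (i, j)) *
      (g (Pi.single i 1) ab.1 * g (Pi.single j 1) ab.2) = algebraMap ℚ L (∑ i : Fin c.1,
        ∑ j : Fin c.1, z (i, j) * (g0 (Pi.single i 1) ab.1 * g0 (Pi.single j 1) ab.2))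
    rw [map_sum]
    refine Finset.sum_congr rfl (fun i _ => ?_)
    rw [map_sum]
    refine Finset.sum_congr rfl (fun j _ => ?_)
    rw [hgs', hgs', hg0s, hg0s, map_mul, map_mul]
  let ge : (Fin c.1 → ℚ) ≃ₗ[ℚ] (Fin c'.1 → ℚ) := LinearMap.linearEquivOfInjective g0 hinj hfin
  have hge : ge.toLinearMap = g0 := by
    ext1
    rfl
  refine ⟨ge, fun z => ?_⟩
  have hz := hg (fun cd => algebraMap ℚ L (z cd))
  have hP : (ndOf (fun a => algebraMap ℚ L (N.val a)) c).P (fun cd => algebraMap ℚ L (z cd)) = 0 ↔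
      (ndOf N.val c).P z = 0 := by
    have h1 := P_base (L := L) N.val c z
    exact (iff_of_eq (congrArg (fun y => y = 0) h1)).trans hι0
  have hP' : (ndOf (fun a => algebraMap ℚ L (N.val a)) c').P
      (tsq g.toLinearMap (fun cd => algebraMap ℚ L (z cd))) = 0 ↔
      (ndOf N.val c').P (tsq g0 z) = 0 := by
    have h1 := P_base (L := L) N.val c' (tsq g0 z)
    refine (iff_of_eq (congrArg (fun y => (ndOf (fun a => algebraMap ℚ L (N.val a)) c').P y = 0)
      (htsq z))).trans ?_
    exact (iff_of_eq (congrArg (fun y => y = 0) h1)).trans hι0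
  have key : ((ndOf N.val c).P z = 0 ↔ (ndOf N.val c').P (tsq g0 z) = 0) :=
    hP.symm.trans (hz.1.trans hP')
  have key2 : (ndOf N.val c).P z = 0 → g0 ((ndOf N.val c).M z) = (ndOf N.val c').M (tsq g0 z) := by
    intro h0
    have h1 := hz.2 (hP.2 h0)
    have h2 := M_base (L := L) N.val c z
    have h3 := M_base (L := L) N.val c' (tsq g0 z)
    apply hι (α := Fin c'.1)
    refine (hg0 _).symm.trans ((congrArg g h2).symm.trans (h1.trans ?_))
    exact (congrArg (ndOf (fun a => algebraMap ℚ L (N.val a)) c').M (htsq z)).trans h3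
  rw [hge]
  exact ⟨key, key2⟩

/-- The set of the isomorphisms of the presented algebras is finite. -/
theorem finite_isos {C K : Type} [Field K] {val : C → K} {p q : Pres C}
    (h : FinIsos val p q) : {e : (FA K p.1 ⧸ idl val p) ≃ₗ[K] (FA K q.1 ⧸ idl val q) |
      ∀ x y, e (qmul val p x y) = qmul val q (e x) (e y)}.Finite := by
  classical
  obtain ⟨T, hT⟩ := h
  obtain ⟨s, hs⟩ := (idl val q).mkQ.exists_rightInverse_of_surjective
    (LinearMap.range_eq_top.2 (Submodule.mkQ_surjective _))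
  have hs' : ∀ y : FA K q.1 ⧸ idl val q, Submodule.Quotient.mk (s y) = y :=
    fun y => LinearMap.congr_fun hs y
  have key : ∀ e : (FA K p.1 ⧸ idl val p) ≃ₗ[K] (FA K q.1 ⧸ idl val q),
      (∀ x y, e (qmul val p x y) = qmul val q (e x) (e y)) →
      ∃ g' ∈ T, ∀ x : FA K p.1, e (Submodule.Quotient.mk x) = Submodule.Quotient.mk (g' x) := by
    intro e he
    have hg : ∀ x : FA K p.1, (Submodule.Quotient.mk (s (e (Submodule.Quotient.mk x))) :
        FA K q.1 ⧸ idl val q) = e (Submodule.Quotient.mk x) := fun x => hs' _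
    obtain ⟨g', hg', h2⟩ := hT (fun x => s (e (Submodule.Quotient.mk x))) (by
      refine ⟨⟨fun x y => ?_, fun a x => ?_⟩, ⟨fun x => ?_, fun y => ?_⟩, fun x y => ?_⟩
      · dsimp only
        rw [Submodule.Quotient.mk_add, map_add, map_add]
      · dsimp only
        rw [Submodule.Quotient.mk_smul, map_smul, map_smul]
      · rw [← Submodule.Quotient.mk_eq_zero, hg, e.map_eq_zero_iff, Submodule.Quotient.mk_eq_zero]
      · obtain ⟨x, hx⟩ := Submodule.Quotient.mk_surjective _ (e.symm (Submodule.Quotient.mk y))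
        refine ⟨x, ?_⟩
        rw [← Submodule.Quotient.eq, hg, hx, e.apply_symm_apply]
      · rw [← Submodule.Quotient.eq, hg, ← qmul_mk, ← qmul_mk, he, hg, hg])
    refine ⟨g', hg', fun x => ?_⟩
    have h3 := h2 x
    rw [← Submodule.Quotient.eq, hg] at h3
    exact h3
  choose! G hG hG' using key
  refine Set.Finite.of_finite_image (f := fun e => G e) ?_ ?_
  · refine Set.Finite.subset (List.finite_toSet T) ?_
    rintro _ ⟨e, he, rfl⟩
    exact hG e he
  · intro e he e' he' hee
    apply LinearEquiv.ext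
    intro x
    obtain ⟨x, rfl⟩ := Submodule.Quotient.mk_surjective _ x
    rw [hG' e he, hG' e' he']
    exact congrArg (fun g : FA K p.1 → FA K q.1 =>
      (Submodule.Quotient.mk (g x) : FA K q.1 ⧸ idl val q)) hee

/-- Finitely many automorphisms of one of the two algebras. -/
theorem finite_isos' {C K : Type} [Field K] {val : C → K} {p q : Pres C}
    (h : FinIsos val p q ∨ FinIsos val p p ∨ FinIsos val q q) :
    {e : (FA K p.1 ⧸ idl val p) ≃ₗ[K] (FA K q.1 ⧸ idl val q) |
      ∀ x y, e (qmul val p x y) = qmul val q (e x) (e y)}.Finite := by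
  rcases Set.eq_empty_or_nonempty {e : (FA K p.1 ⧸ idl val p) ≃ₗ[K] (FA K q.1 ⧸ idl val q) |
      ∀ x y, e (qmul val p x y) = qmul val q (e x) (e y)} with h0 | ⟨e0, he0⟩
  · rw [h0]
    exact Set.finite_empty
  have he0' : ∀ x y, e0.symm (qmul val q x y) = qmul val p (e0.symm x) (e0.symm y) := by
    intro x y
    apply e0.injective
    rw [he0, e0.apply_symm_apply, e0.apply_symm_apply, e0.apply_symm_apply]
  rcases h with h | h | h
  · exact finite_isos h
  · refine Set.Finite.of_finite_image (f := fun e => e.trans e0.symm)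
      ((finite_isos h).subset ?_) ?_
    · rintro _ ⟨e, he, rfl⟩ x y
      show e0.symm (e (qmul val p x y)) = qmul val p (e0.symm (e x)) (e0.symm (e y))
      rw [he, he0']
    · intro e _ e' _ hee
      apply LinearEquiv.ext
      intro x
      have h1 := LinearEquiv.congr_fun hee x
      exact e0.symm.injective h1
  · refine Set.Finite.of_finite_image (f := fun e => e0.symm.trans e)
      ((finite_isos h).subset ?_) ?_
    · rintro _ ⟨e, he, rfl⟩ x y
      show e (e0.symm (qmul val q x y)) = qmul val q (e (e0.symm x)) (e (e0.symm y))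
      rw [he0', he]
    · intro e _ e' _ hee
      apply LinearEquiv.ext
      intro x
      have h1 := LinearEquiv.congr_fun hee (e0 x)
      have h2 : e (e0.symm (e0 x)) = e' (e0.symm (e0 x)) := h1
      rwa [e0.symm_apply_apply] at h2

/-- Finitely many isomorphisms of normal form data. -/
theorem finite_isN (N : NumF L QC) (p q : Pres QC) (c c' : NC QC) (hc : (ndOf N.val c).Ok)
    (hc' : (ndOf N.val c').Ok) (hp : PresIso N.val p (npres N c))
    (hq : PresIso N.val q (npres N c'))
    (hfin : {e : (FA L p.1 ⧸ idl N.val p) ≃ₗ[L] (FA L q.1 ⧸ idl N.val q) |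
      ∀ x y, e (qmul N.val p x y) = qmul N.val q (e x) (e y)}.Finite) :
    {s : Fin c'.1 × Fin c.1 → L | IsN (ndOf N.val c) (ndOf N.val c') s}.Finite := by
  classical
  obtain ⟨e1, he1⟩ := (presIso_iff _ _ _).1 hp
  obtain ⟨e2, he2⟩ := (presIso_iff _ _ _).1 hq
  let x0 : Fin c.1 → (FA L (npres N c).1 ⧸ idl N.val (npres N c)) :=
    fun i => Submodule.Quotient.mk (gen i)
  let x0' : Fin c'.1 → (FA L (npres N c').1 ⧸ idl N.val (npres N c')) :=
    fun i => Submodule.Quotient.mk (gen i)
  have hx : Realises (qmul N.val (npres N c)) (ndOf N.val c) x0 := realises_npres N c hc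
  have hx' : Realises (qmul N.val (npres N c')) (ndOf N.val c') x0' := realises_npres N c' hc'
  have key : ∀ s : Fin c'.1 × Fin c.1 → L, IsN (ndOf N.val c) (ndOf N.val c') s →
      ∃ φ : (FA L p.1 ⧸ idl N.val p) ≃ₗ[L] (FA L q.1 ⧸ idl N.val q),
        (∀ x y, φ (qmul N.val p x y) = qmul N.val q (φ x) (φ y)) ∧
        ∀ (a : Fin c.1), e2 (φ (e1.symm (vecL (K := L) x0 (Pi.single a 1)))) =
          vecL (K := L) x0' (fun b => s (b, a)) := by
    rintro s ⟨g, hg, hgs⟩
    obtain ⟨ψ, hψ, hψv⟩ := exists_algIso _ _ hx hx' g hg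
    refine ⟨(e1.trans ψ).trans e2.symm, fun x y => ?_, fun a => ?_⟩
    · apply e2.injective
      simp only [LinearEquiv.trans_apply]
      rw [e2.apply_symm_apply, he2, e2.apply_symm_apply, e2.apply_symm_apply, he1]
      exact hψ _ _
    · simp only [LinearEquiv.trans_apply]
      rw [e2.apply_symm_apply, e1.apply_symm_apply]
      refine (hψv (Pi.single a 1)).trans ?_
      exact congrArg (vecL (K := L) x0') (funext (fun b => hgs b a))
  rcases Set.eq_empty_or_nonempty
    {s : Fin c'.1 × Fin c.1 → L | IsN (ndOf N.val c) (ndOf N.val c') s} with h0 | ⟨s0, hs0⟩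
  · rw [h0]
    exact Set.finite_empty
  obtain ⟨φ0, -⟩ := key s0 hs0
  haveI : Nonempty ((FA L p.1 ⧸ idl N.val p) ≃ₗ[L] (FA L q.1 ⧸ idl N.val q)) := ⟨φ0⟩
  choose! Φ hΦ hΦ' using key
  refine Set.Finite.of_finite_image (f := Φ) (hfin.subset ?_) ?_
  · rintro _ ⟨s, hs, rfl⟩
    exact hΦ s hs
  · intro s hs s' hs' hss
    funext ab
    obtain ⟨b, a⟩ := ab
    have h1 := hΦ' s hs a
    have h2 := hΦ' s' hs' a
    rw [hss, h2] at h1
    exact (congrFun (vecL_injective hx'.indep h1) b).symm

end coded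

end Rig

end Pool.Agent.Work.MP_9ac17e_al
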