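import Pool.Agent.Work.MP_9ac17e_al.Rig.E

/-!
# The decision procedure for pairs with finitely many isomorphisms over the algebraic closure
-/

set_option autoImplicit false

namespace Pool.Agent.Work.MP_9ac17e_al.Rig

section coded

variable (N : NumF ℚ QC)

theorem cev_hom {F L : Type} [Field F] [Algebra ℚ F] [Field L] [Algebra ℚ L] (σ : F →ₐ[ℚ] L)
    (X : ℕ → F) (r : Rel QC) : cev N.val (fun t => σ (X t)) r = σ (cev N.val X r) := by
  induction r with
  | nil => simp [cev]
  | cons c r ih =>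
    rw [cev_cons, cev_cons, ih, map_add, map_mul, map_list_prod, List.map_map, AlgHom.commutes]
    rfl

theorem edim_injective : Function.Injective edim := by
  intro a b h
  unfold edim at h
  by_contra hne
  rcases Nat.lt_or_gt_of_ne hne with h1 | h1
  · have := Nat.mul_le_mul h1.le h1.le
    omega
  · have := Nat.mul_le_mul h1.le h1.le
    omega

theorem exists_closure (L : Type) [Field L] [Algebra ℚ L] [IsAlgClosed L] :
    ∃ (F : Type) (_ : Field F) (_ : Algebra ℚ F) (_ : IsAlgClosure ℚ F),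
      Nonempty (F →ₐ[ℚ] L) := by
  let _ : Algebra ℚ (AlgebraicClosure ℚ) := AlgebraicClosure.instAlgebra ℚ
  have h1 : Algebra.IsAlgebraic ℚ (AlgebraicClosure ℚ) := AlgebraicClosure.isAlgebraic ℚ
  refine ⟨AlgebraicClosure ℚ, inferInstance, inferInstance, ⟨inferInstance, h1⟩, ?_⟩
  exact ⟨IsAlgClosed.lift⟩

/-- **Completeness** of the certificates in the case of finitely many isomorphisms. -/
theorem noCert_complete (hs : Function.Surjective N.val) (hN : N.val = valQ) (c c' : NC QC)
    (L : Type) [Field L] [Algebra ℚ L] [IsAlgClosed L]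
    (hfin : {s : Fin c'.1 × Fin c.1 → L |
      IsN (ndOf (fun a => algebraMap ℚ L (N.val a)) c)
        (ndOf (fun a => algebraMap ℚ L (N.val a)) c') s}.Finite)
    (hno : ¬ NIso (ndOf N.val c) (ndOf N.val c')) : NoCert N (ecode N c, ecode N c') := by
  classical
  by_cases hn : c.1 = c'.1
  swap
  · exact Or.inl (fun h => hn (edim_injective h))
  obtain ⟨n, lc⟩ := c
  obtain ⟨n', lc'⟩ := c'
  have hn' : n = n' := hn
  subst hn'
  obtain ⟨F, _, _, _, ⟨φ⟩⟩ := exists_closure L
  have _ : Algebra.IsAlgebraic ℚ F := IsAlgClosure.isAlgebraic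
  have _ : IsAlgClosed F := IsAlgClosure.isAlgClosed ℚ
  set q : FD QC × FD QC := (ecode N (n, lc), ecode N (n, lc')) with hq
  have hk : (csys N q).1 = 2 * (edim n * edim n) := rfl
  set S : Set (Fin n × Fin n → F) :=
    {s | ∃ X : ℕ → F, (∀ r ∈ (csys N q).2, cev N.val X r = 0) ∧
      s = fun ab => X (vix n ab)} with hS
  have hSfin : S.Finite := by
    refine Set.Finite.of_finite_image (f := fun s ab => φ (s ab)) (hfin.subset ?_) ?_
    · rintro _ ⟨s, ⟨X, hX, rfl⟩, rfl⟩
      refine isN_of_sol N (fun t => φ (X t)) (fun r hr => ?_)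
      rw [cev_hom, hX r hr, map_zero]
    · intro s _ s' _ hss
      funext ab
      exact φ.injective (congrFun hss ab)
  have hSσ : ∀ (σ : F ≃ₐ[ℚ] F), ∀ s ∈ S, (fun i => σ (s i)) ∈ S := by
    rintro σ s ⟨X, hX, rfl⟩
    refine ⟨fun t => σ (X t), fun r hr => ?_, rfl⟩
    have h1 := cev_hom N (σ : F →ₐ[ℚ] F) X r
    rw [hX r hr, map_zero] at h1
    exact h1
  have hSr : ∀ s ∈ S, ¬ ∃ r : Fin n × Fin n → ℚ, s = fun i => algebraMap ℚ F (r i) := by
    rintro s ⟨X, hX, hsX⟩ ⟨r, hr⟩
    have h1 := isN_of_sol N X hX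
    have h2 : (fun ab : Fin n × Fin n => X (vix n ab)) =
        fun i => algebraMap ℚ F (r i) := hsX.symm.trans hr
    exact hno (nIso_of_rational N (n, lc) (n, lc') r (h2 ▸ h1))
  obtain ⟨c0, h, hm, hroot, hzero⟩ := exists_cert S hSfin hSσ hSr
  obtain ⟨l, rfl⟩ := exists_hpoly h hm
  -- the coefficients
  choose code hcode using hs
  let γ : ℕ → ℤ := fun t => ∑ ab : Fin n × Fin n, if t = vix n ab then c0 ab else 0
  let cs : List QC := (List.range (2 * (edim n * edim n))).map (fun t => code (γ t : ℚ))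
  have hcs : ∀ t < 2 * (edim n * edim n), N.val (N.ent cs t) = (γ t : ℚ) := by
    intro t ht
    unfold NumF.ent
    rw [List.getElem?_map, List.getElem?_range ht]
    exact hcode _
  refine Or.inr ⟨(cs, l), (rtest_iff l).2 hroot, ?_⟩
  by_contra hone
  have hsol := (solv_iff N.val F (xsys N q cs l)).2 hone
  obtain ⟨x, hx⟩ := hsol
  have hx' : ∀ r ∈ (xsys N q cs l).2, cev N.val (ext0 x) r = 0 := by
    intro r hr
    rw [← aeval_csem]
    exact hx r hr
  rw [xsys_iff N hN] at hx'
  obtain ⟨h1, h2, h3⟩ := hx'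
  have h4 := hzero (fun ab => ext0 x (vix n ab)) ⟨ext0 x, h3, rfl⟩
  have h5 : ext0 x (csys N q).1 =
      ∑ ab : Fin n × Fin n, (c0 ab : F) * ext0 x (vix n ab) := by
    rw [h1]
    have h6 : ∀ i : Fin (csys N q).1,
        algebraMap ℚ F (N.val (N.ent cs i)) * ext0 x i =
        ∑ ab : Fin n × Fin n, (if (i : ℕ) = vix n ab then (c0 ab : F) else 0) *
          ext0 x i := by
      intro i
      rw [hcs i i.2, ← Finset.sum_mul]
      congr 1
      rw [map_intCast]
      show ((∑ ab : Fin n × Fin n, if (i : ℕ) = vix n ab then c0 ab else 0 : ℤ) :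
        F) = _
      rw [Int.cast_sum]
      refine Finset.sum_congr rfl (fun ab _ => ?_)
      split_ifs <;> simp
    rw [Finset.sum_congr rfl (fun i _ => h6 i), Finset.sum_comm]
    refine Finset.sum_congr rfl (fun ab _ => ?_)
    rw [Finset.sum_eq_single (⟨vix n ab, vix_lt n ab⟩ : Fin (csys N q).1)]
    · rw [if_pos rfl]
    · intro i _ hi
      rw [if_neg (fun h => hi (Fin.ext h)), zero_mul]
    · intro h
      exact absurd (Finset.mem_univ _) h
  rw [h5, h4, mul_zero] at h2
  exact zero_ne_one h2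

end coded

/-- **The main theorem.** -/
theorem main : ∃ f : Pres QC × Pres QC →. Bool, Partrec f ∧
    (∀ q b, b ∈ f q → (b = true ↔ PIso valQ q.1 q.2)) ∧
    (∀ q : Pres QC × Pres QC, PIso valQ q.1 q.2 → (f q).Dom) ∧
    ∀ (L : Type) [Field L] [Algebra ℚ L] [IsAlgClosed L] (q : Pres QC × Pres QC),
      (FinIsos (fun a => algebraMap ℚ L (valQ a)) q.1 q.2 ∨
        FinIsos (fun a => algebraMap ℚ L (valQ a)) q.1 q.1 ∨
        FinIsos (fun a => algebraMap ℚ L (valQ a)) q.2 q.2) → (f q).Dom := by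
  classical
  obtain ⟨N, hN⟩ := exists_numF_rat
  have hs : Function.Surjective N.val := hN ▸ valQ_surjective
  have hsig : PR.Sig (fun x : Pres QC × NC QC => ((ndOf N.val x.2).Ok ∧ (ndOf N.val x.2).Rd) ∧
      PresIso N.val x.1 (npres N x.2)) := by
    refine PR.Sig.and (PR.Sig.comp (sig_valid N hs) (f := fun x : Pres QC × NC QC => x.2)
      (by fun_prop))
      (PR.Sig.comp (sig_presIso N hs) (f := fun x : Pres QC × NC QC => (x.1, npres N x.2)) ?_)
    exact Primrec.fst.pair ((primrec_npres N).comp Primrec.snd)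
  obtain ⟨g, hg, hP⟩ := PR.Sig.select hsig (fun p => by
    obtain ⟨c, h1, h2, h3⟩ := exists_npres N hs p
    exact ⟨c, ⟨h1, h2⟩, h3⟩)
  -- the reduction
  have hred : ∀ p q : Pres QC, PresIso N.val p q ↔ NIso (ndOf N.val (g p)) (ndOf N.val (g q)) := by
    intro p q
    obtain ⟨⟨h1, h2⟩, h3⟩ := hP p
    obtain ⟨⟨h1', h2'⟩, h3'⟩ := hP q
    have h5 := presIso_npres_iff N (g p) (g q) h1 h2 h1' h2'
    have h6 : NIso (ndOf N.val (g p)) (ndOf N.val (g q)) ↔
        FDIso N.val (ecode N (g p)) (ecode N (g q)) :=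
      (niso_iff _ _ h1 h1').trans (fdIso_ecode N (g p) (g q)).symm
    rw [h6, ← h5]
    exact ⟨fun h => presIso_trans (presIso_symm h3) (presIso_trans h h3'),
      fun h => presIso_trans h3 (presIso_trans h (presIso_symm h3'))⟩
  have hred' : ∀ p q : Pres QC, PresIso N.val p q ↔
      FDIso N.val (ecode N (g p)) (ecode N (g q)) := by
    intro p q
    obtain ⟨⟨h1, -⟩, -⟩ := hP p
    obtain ⟨⟨h1', -⟩, -⟩ := hP q
    exact (hred p q).trans ((niso_iff _ _ h1 h1').trans (fdIso_ecode N (g p) (g q)).symm)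
  have hyes : REPred (fun q : Pres QC × Pres QC => PresIso N.val q.1 q.2) :=
    (sig_presIso N hs).rePred
  have hno : REPred (fun q : Pres QC × Pres QC => NoCert N (ecode N (g q.1), ecode N (g q.2))) := by
    have h1 : Computable (fun q : Pres QC × Pres QC => (ecode N (g q.1), ecode N (g q.2))) :=
      ((primrec_ecode N).to_comp.comp (hg.comp Computable.fst)).pair
        ((primrec_ecode N).to_comp.comp (hg.comp Computable.snd))
    exact Partrec.comp (sig_noCert N hs).rePred h1
  have hdisj : ∀ q : Pres QC × Pres QC, PresIso N.val q.1 q.2 →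
      ¬ NoCert N (ecode N (g q.1), ecode N (g q.2)) := fun q h1 h2 =>
    noCert_sound N hN _ h2 ((hred' q.1 q.2).1 h1)
  have hf1 : Partrec (fun q : Pres QC × Pres QC =>
      (Part.assert (PresIso N.val q.1 q.2) fun _ => Part.some ()).map (fun _ => true)) :=
    hyes.map (Computable.const true).to₂
  have hf2 : Partrec (fun q : Pres QC × Pres QC =>
      (Part.assert (NoCert N (ecode N (g q.1), ecode N (g q.2))) fun _ =>
        Part.some ()).map (fun _ => false)) :=
    hno.map (Computable.const false).to₂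
  have hm1 : ∀ (q : Pres QC × Pres QC) (b : Bool),
      b ∈ (Part.assert (PresIso N.val q.1 q.2) fun _ => Part.some ()).map (fun _ => true) ↔
        PresIso N.val q.1 q.2 ∧ b = true := by
    intro q b
    simp only [Part.mem_map_iff, Part.mem_assert_iff, Part.mem_some_iff]
    constructor
    · rintro ⟨u, ⟨h, -⟩, rfl⟩
      exact ⟨h, rfl⟩
    · rintro ⟨h, rfl⟩
      exact ⟨(), ⟨h, trivial⟩, rfl⟩
  have hm2 : ∀ (q : Pres QC × Pres QC) (b : Bool),
      b ∈ (Part.assert (NoCert N (ecode N (g q.1), ecode N (g q.2))) fun _ =>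
        Part.some ()).map (fun _ => false) ↔
        NoCert N (ecode N (g q.1), ecode N (g q.2)) ∧ b = false := by
    intro q b
    simp only [Part.mem_map_iff, Part.mem_assert_iff, Part.mem_some_iff]
    constructor
    · rintro ⟨u, ⟨h, -⟩, rfl⟩
      exact ⟨h, rfl⟩
    · rintro ⟨h, rfl⟩
      exact ⟨(), ⟨h, trivial⟩, rfl⟩
  obtain ⟨f, hf, hff⟩ := Partrec.merge hf1 hf2 (fun q b hb b' hb' => by
    rw [hm1] at hb
    rw [hm2] at hb'
    exact absurd hb'.1 (hdisj q hb.1))
  have hiso : ∀ q : Pres QC × Pres QC, PIso valQ q.1 q.2 ↔ PresIso N.val q.1 q.2 := by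
    intro q
    rw [pIso_iff, hN]
  have hyesdom : ∀ q : Pres QC × Pres QC, PresIso N.val q.1 q.2 → (f q).Dom := by
    intro q h
    rw [Part.dom_iff_mem]
    exact ⟨true, (hff q true).2 (Or.inl ((hm1 q true).2 ⟨h, rfl⟩))⟩
  refine ⟨f, hf, fun q b hb => ?_, fun q hq => hyesdom q ((hiso q).1 hq), fun L _ _ _ q hq => ?_⟩
  · rw [hff, hm1, hm2] at hb
    rw [hiso]
    rcases hb with ⟨h, rfl⟩ | ⟨h, rfl⟩
    · exact ⟨fun _ => h, fun _ => rfl⟩
    · exact ⟨fun h' => absurd h' (by decide), fun h' => absurd h (hdisj q h')⟩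
  · by_cases h : PresIso N.val q.1 q.2
    · exact hyesdom q h
    · rw [Part.dom_iff_mem]
      refine ⟨false, (hff q false).2 (Or.inr ((hm2 q false).2 ⟨?_, rfl⟩))⟩
      have hq' : FinIsos (N.base L).val q.1 q.2 ∨ FinIsos (N.base L).val q.1 q.1 ∨
          FinIsos (N.base L).val q.2 q.2 := by
        rw [N.base_val, hN]
        exact hq
      obtain ⟨⟨h1, h2⟩, h3⟩ := hP q.1
      obtain ⟨⟨h1', h2'⟩, h3'⟩ := hP q.2
      refine noCert_complete N hs hN _ _ L ?_ (fun h' => h ((hred q.1 q.2).2 h'))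
      exact finite_isN (N.base L) q.1 q.2 (g q.1) (g q.2)
        (ok_base N.val _ h1) (ok_base N.val _ h1') (presIso_base N hs _ _ _ h3)
        (presIso_base N hs _ _ _ h3') (finite_isos' hq')

end Pool.Agent.Work.MP_9ac17e_al.Rig
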